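import Pool.Agent.U180.DP.Fin1
import Pool.Agent.U603.DP.PREC
import Pool.Agent.U689.DP.VOID2
import Pool.Agent.U44.DP.START
import Pool.Agent.U83.DP.PAIR2
import Pool.Agent.U56.DP.KS
import Pool.Agent.U600.DP.SER
import Pool.Agent.U667.DP.SECUP
import Pool.Agent.U925.DP.SECLOW

/-!
# The largest gaps between randomly displaced primes

Project DP (lead: seat helper180). Every prime `p` is displaced to
`dis A U p = p + p / (log p)^A * U p` with independent `U p`, uniform in `[0, 1]`. `IsGap a b` says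
that `a < b` are consecutive displaced primes. Almost surely the upper limit of
`(b - a) / (log a)^2` is `1`, and if `A > 1` the upper limit of
`(b - a - (log a)^2) / (log a log log log a)` is `1`.
-/

set_option autoImplicit false

open MeasureTheory ProbabilityTheory Filter Topology

namespace Pool.Agent.Results.MP_ff81b6_nt.DisplacedPrimes

open Pool.Agent Pool.Agent.U180.DP

theorem result (Ω : Type) [MeasurableSpace Ω] (P : Measure Ω) (A : ℝ)
    (U : ℕ → Ω → ℝ) (hU : IsUnif P U) (hA : 0 < A) :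
    (∀ᵐ ω ∂P, ∀ ε : ℝ, 0 < ε →
      (∃ T : ℝ, ∀ a b : ℝ, IsGap A U ω a b → T ≤ a → b - a ≤ (1 + ε) * Real.log a ^ 2) ∧
      ∀ T : ℝ, ∃ a b : ℝ, IsGap A U ω a b ∧ T ≤ a ∧ (1 - ε) * Real.log a ^ 2 ≤ b - a) ∧
    (1 < A → ∀ᵐ ω ∂P, ∀ ε : ℝ, 0 < ε →
      (∃ T : ℝ, ∀ a b : ℝ, IsGap A U ω a b → T ≤ a →
        b - a ≤ Real.log a ^ 2 + (1 + ε) * (Real.log a * Real.log (Real.log (Real.log a)))) ∧
      ∀ T : ℝ, ∃ a b : ℝ, IsGap A U ω a b ∧ T ≤ a ∧
        Real.log a ^ 2 + (1 - ε) * (Real.log a * Real.log (Real.log (Real.log a))) ≤ b - a) := by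
  refine ⟨gap_final all1.1 U27.DP.t_LAW Ω P A U hU hA, fun hA1 => ?_⟩
  obtain ⟨h1, h2⟩ := final2 U603.DP.t_PREC U27.DP.t_LAW U689.DP.t_VOID2 U44.DP.t_START
    U83.DP.t_PAIR2 U56.DP.t_KS U600.DP.t_SER U667.DP.t_SECUP U925.DP.t_SECLOW
  filter_upwards [h1 Ω P A U hU hA1, h2 Ω P A U hU hA1] with ω h1 h2 ε hε
  exact ⟨h1 ε hε, h2 ε hε⟩

end Pool.Agent.Results.MP_ff81b6_nt.DisplacedPrimes
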