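import Pool.Agent.U828.KD.Rec

/-!
# Record prime gaps around the values of arbitrary functions of higher convexity, at the same time

Fix `d ≥ 2` and `0 < δ ≤ 1`. Let `f_1, ..., f_r` be ANY functions on `{1, ..., x}`, `x ≥ M ^ (1 / d + δ)`, with values in
`[M ^ δ, M]`, such that for every nonzero integer vector `h` with `|h_j| ≤ M ^ ρ` the differences of order `d` of
`h_1 f_1 + ... + h_r f_r` keep one sign and are at least `M ^ (1 - θ) / x ^ d` in absolute value; here `θ > 0` depends only on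
`d` and `δ`, and `ρ > 0` is arbitrary (`M / x ^ d` is the order of the `d`-th differences of a function like `M (m / x) ^ d`).
Then at least `x M ^ (-δ)` of the `m ≤ x` have the property that there are no primes at distance
`κ log M (log₂ M)² log₄ M / (log₃ M)²` from any of the numbers `f_1(m), ..., f_r(m)`; so all of these numbers lie in gaps
between consecutive primes of at least this length (twice this length), which is the record size known in the library.

Part 2 is the case of the multiples `α_1 f(m), ..., α_r f(m)` of the values of a single function whose `d`-th differences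
keep one sign and are at least `M ^ (1 - θ) / x ^ d`, where `α_1, ..., α_r` are real numbers with
`|h_1 α_1 + ... + h_r α_r| ≥ c / max |h_j| ^ A` for all integer vectors `h ≠ 0` (for instance algebraic numbers which are
linearly independent over the rational numbers).

For `d = 2` the functions are strictly convex or concave; for larger `d` the record gaps are found around the values of
functions with only `M ^ (1 / d + δ)` values up to `M`. The earlier results of the library on record gaps near the values of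
functions treat polynomials, generalised polynomials and further explicit sequences. Here nothing is assumed of the functions
except the sign and the size of the `d`-th differences: they need not be smooth, nor given by a formula.

Proof: a `d`-th derivative test of van der Corput's type for arbitrary sequences (`Pool.Agent.U828.KD.test`, helper828), in the
middle half of the range, where the differences of lower order are under control, and the joint criterion
`Pool.Agent.Y961.JR.crit_scaledJ` of the starting files (the covering sieve for families of vectors with small exponential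
sums).
-/

set_option autoImplicit false

namespace Pool.Agent.Results.MP_ff81b6_nt.HigherConvexFunctions

open Finset Filter

/-- The record scale `log x (log₂ x)² log₄ x / (log₃ x)²`, where `log₂ x = log log x` and so on. -/
noncomputable def scale (x : ℝ) : ℝ :=
  Real.log x * (Real.log (Real.log x)) ^ 2 * Real.log (Real.log (Real.log (Real.log x))) /
    (Real.log (Real.log (Real.log x))) ^ 2

/-- There is no prime at distance at most `κ scale M` from `y`. -/
def PrimeFree (κ M y : ℝ) : Prop := ∀ q : ℕ, q.Prime → κ * scale M < |(q : ℝ) - y|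

/-- The differences of order `d` of `f` on `{1, ..., x}` are all at least `lam`, or all at most `-lam`. Here
`fwdDiff 1 f m` is the difference `f (m + 1) - f m`. -/
def Bent (d x : ℕ) (f : ℕ → ℝ) (lam : ℝ) : Prop :=
  (∀ m, 1 ≤ m → m + d ≤ x → lam ≤ (fwdDiff 1)^[d] f m) ∨ (∀ m, 1 ≤ m → m + d ≤ x → (fwdDiff 1)^[d] f m ≤ -lam)

open Classical in
/-- Let `r ≥ 1`, `d ≥ 2` and `0 < δ ≤ 1`. There is a `θ > 0` with the following properties.

1. For every `ρ > 0` there is a `κ > 0` such that for all large `M`, all `x ≥ M ^ (1 / d + δ)` and all functions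
`f_1, ..., f_r` with values in `[M ^ δ, M]` on `{1, ..., x}`: if for all integer vectors `h ≠ 0` with `|h_j| ≤ M ^ ρ` the
differences of order `d` of `h_1 f_1 + ... + h_r f_r` on `{1, ..., x}` are all at least `M ^ (1 - θ) / x ^ d`, or all at most
the negative of this number, then there are at least `x M ^ (-δ)` integers `1 ≤ m ≤ x` such that no prime is at distance at
most `κ scale M` from any of the numbers `f_1 m, ..., f_r m`.

2. Let `α_1, ..., α_r` be real numbers, `c > 0` and `A` such that `|h_1 α_1 + ... + h_r α_r| H ^ A ≥ c` for all integer vectors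
`h ≠ 0` with `|h_j| ≤ H`. There is a `κ > 0` such that for all large `M`, all `x ≥ M ^ (1 / d + δ)` and all functions
`f` on `{1, ..., x}` for which all the `α_j f m` are in `[M ^ δ, M]` and whose differences of order `d` are all at least
`M ^ (1 - θ) / x ^ d`, or all at most the negative of this number: there are at least `x M ^ (-δ)` integers `1 ≤ m ≤ x` such
that no prime is at distance at most `κ scale M` from any of the numbers `α_1 f m, ..., α_r f m`. -/
theorem result (r : ℕ) (hr : 1 ≤ r) (d : ℕ) (hd : 2 ≤ d) (δ : ℝ) (h0 : 0 < δ) (h1 : δ ≤ 1) : ∃ θ : ℝ, 0 < θ ∧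
    (∀ ρ : ℝ, 0 < ρ → ∃ κ : ℝ, 0 < κ ∧ ∀ᶠ M : ℝ in atTop, ∀ x : ℕ, M ^ (1 / (d : ℝ) + δ) ≤ x → ∀ f : Fin r → ℕ → ℝ,
      (∀ j, ∀ m ∈ Icc 1 x, M ^ δ ≤ f j m ∧ f j m ≤ M) →
      (∀ h : Fin r → ℤ, h ≠ 0 → (∀ j, |(h j : ℝ)| ≤ M ^ ρ) →
        Bent d x (fun m => ∑ j, (h j : ℝ) * f j m) (M ^ (1 - θ) / (x : ℝ) ^ d)) →
      x * M ^ (-δ) ≤ (((Icc 1 x).filter (fun m => ∀ j, PrimeFree κ M (f j m))).card : ℝ)) ∧
    (∀ (α : Fin r → ℝ) (c : ℝ) (A : ℕ), 0 < c →
      (∀ (h : Fin r → ℤ) (H : ℕ), h ≠ 0 → (∀ j, |h j| ≤ H) → c ≤ |∑ j, (h j : ℝ) * α j| * (H : ℝ) ^ A) →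
      ∃ κ : ℝ, 0 < κ ∧ ∀ᶠ M : ℝ in atTop, ∀ x : ℕ, M ^ (1 / (d : ℝ) + δ) ≤ x → ∀ f : ℕ → ℝ,
      (∀ j, ∀ m ∈ Icc 1 x, M ^ δ ≤ α j * f m ∧ α j * f m ≤ M) →
      Bent d x f (M ^ (1 - θ) / (x : ℝ) ^ d) →
      x * M ^ (-δ) ≤ (((Icc 1 x).filter (fun m => ∀ j, PrimeFree κ M (α j * f m))).card : ℝ)) := by
  obtain ⟨θ', hθ'0, hθ'1, hrec⟩ := Pool.Agent.U828.KD.rec_gaps r hr d hd δ h0 h1
  have part1 : ∀ ρ : ℝ, 0 < ρ → ∃ κ : ℝ, 0 < κ ∧ ∀ᶠ M : ℝ in atTop, ∀ x : ℕ, M ^ (1 / (d : ℝ) + δ) ≤ x →
      ∀ f : Fin r → ℕ → ℝ, (∀ j, ∀ m ∈ Icc 1 x, M ^ δ ≤ f j m ∧ f j m ≤ M) →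
      (∀ h : Fin r → ℤ, h ≠ 0 → (∀ j, |(h j : ℝ)| ≤ M ^ ρ) →
        Bent d x (fun m => ∑ j, (h j : ℝ) * f j m) (M ^ (1 - θ') / (x : ℝ) ^ d)) →
      x * M ^ (-δ) ≤ (((Icc 1 x).filter (fun m => ∀ j, PrimeFree κ M (f j m))).card : ℝ) := by
    intro ρ hρ
    obtain ⟨κ, hκ, hM⟩ := hrec (min ρ θ') (lt_min hρ hθ'0) (min_le_right _ _)
    refine ⟨κ, hκ, ?_⟩
    filter_upwards [hM, eventually_ge_atTop (1 : ℝ)] with M hM hM1
    intro x hx f hf hb
    apply hM x hx f hf (fun h hh hhM => hb h hh fun j => (hhM j).trans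
      (Real.rpow_le_rpow_of_exponent_le hM1 (min_le_left _ _))) _ (filter_subset _ _)
    intro m hm hgood
    rw [mem_filter]
    exact ⟨hm, hgood⟩
  refine ⟨θ' / 2, by linarith, ?_, ?_⟩
  · intro ρ hρ
    obtain ⟨κ, hκ, hM⟩ := part1 ρ hρ
    refine ⟨κ, hκ, ?_⟩
    filter_upwards [hM, eventually_ge_atTop (1 : ℝ)] with M hM hM1
    intro x hx f hf hb
    apply hM x hx f hf
    intro h hh hhM
    refine Pool.Agent.U828.KD.bent_mono' ?_ (hb h hh hhM)
    apply div_le_div_of_nonneg_right _ (by positivity)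
    exact Real.rpow_le_rpow_of_exponent_le hM1 (by linarith)
  intro α c A hc hα
  obtain ⟨ρ, hρ⟩ : ∃ ρ : ℝ, ρ = θ' / (4 * (A + 1)) := ⟨_, rfl⟩
  have hA0 : (0 : ℝ) ≤ A := Nat.cast_nonneg _
  have hρ0 : 0 < ρ := by rw [hρ]; positivity
  have hρA : ρ * (A + 1) = θ' / 4 := by
    rw [hρ]
    field_simp
  obtain ⟨κ, hκ, hM⟩ := part1 ρ hρ0
  refine ⟨κ, hκ, ?_⟩
  have hlim := (tendsto_rpow_atTop (show (0 : ℝ) < θ' / 4 by positivity)).eventually_ge_atTop (2 ^ A / c)
  filter_upwards [hM, hlim, eventually_ge_atTop (1 : ℝ)] with M hM hMc hM1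
  intro x hx f hf hb
  have hM0 : 0 < M := by linarith
  have hpow : ∀ a b : ℝ, a ≤ b → M ^ a ≤ M ^ b := fun a b hab => Real.rpow_le_rpow_of_exponent_le hM1 hab
  have hx0 : (0 : ℝ) < x := lt_of_lt_of_le (Real.rpow_pos_of_pos hM0 _) hx
  apply hM x hx (fun j m => α j * f m) (fun j m hm => hf j m hm)
  intro h hh hhM
  obtain ⟨a, ha⟩ : ∃ a, a = ∑ j, (h j : ℝ) * α j := ⟨_, rfl⟩
  have hcomb : (fun m => ∑ j, (h j : ℝ) * (α j * f m)) = fun m => a * f m := by
    funext m
    rw [ha, sum_mul]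
    exact sum_congr rfl fun j _ => by ring
  -- the lower bound for `a`
  have hMθ1 : 1 ≤ M ^ ρ := Real.one_le_rpow hM1 hρ0.le
  have hceil : ((⌈M ^ ρ⌉₊ : ℕ) : ℝ) ≤ 2 * M ^ ρ := by
    have := (Nat.ceil_lt_add_one (show 0 ≤ M ^ ρ by positivity)).le
    linarith
  have ha1 : c ≤ |a| * (2 * M ^ ρ) ^ A := by
    have h2 := hα h ⌈M ^ ρ⌉₊ hh (fun j => by
      have h3 : |(h j : ℝ)| ≤ (⌈M ^ ρ⌉₊ : ℕ) := (hhM j).trans (Nat.le_ceil _)
      have h4 : ((|h j| : ℤ) : ℝ) ≤ ((⌈M ^ ρ⌉₊ : ℤ) : ℝ) := by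
        push_cast
        exact h3
      exact_mod_cast h4)
    rw [← ha] at h2
    refine h2.trans ?_
    apply mul_le_mul_of_nonneg_left _ (abs_nonneg _)
    exact pow_le_pow_left₀ (Nat.cast_nonneg _) hceil A
  have hkey : M ^ (1 - θ') / (x : ℝ) ^ d ≤ |a| * (M ^ (1 - θ' / 2) / (x : ℝ) ^ d) := by
    have hMA : (M ^ ρ) ^ A = M ^ (ρ * A) := by
      rw [← Real.rpow_natCast, ← Real.rpow_mul hM0.le]
    have hc2 : 2 ^ A ≤ c * M ^ (θ' / 4) := by
      rw [div_le_iff₀ hc] at hMc
      linarith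
    have hone : 1 ≤ |a| * M ^ (θ' / 2) := by
      have h2 : 2 ^ A ≤ |a| * (2 * M ^ ρ) ^ A * M ^ (θ' / 4) :=
        hc2.trans (mul_le_mul_of_nonneg_right ha1 (by positivity))
      have h3 : |a| * (2 * M ^ ρ) ^ A * M ^ (θ' / 4) = 2 ^ A * (|a| * M ^ (ρ * A + θ' / 4)) := by
        rw [mul_pow, hMA, Real.rpow_add hM0]
        ring
      rw [h3] at h2
      have h4 : 1 ≤ |a| * M ^ (ρ * A + θ' / 4) := by
        have h5 : (0 : ℝ) < 2 ^ A := by positivity
        by_contra hcon
        push Not at hcon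
        have := mul_lt_mul_of_pos_left hcon h5
        linarith
      refine h4.trans (mul_le_mul_of_nonneg_left (hpow _ _ ?_) (abs_nonneg _))
      have h6 : ρ * A + ρ = θ' / 4 := by
        rw [← hρA]
        ring
      linarith
    rw [mul_div_assoc'] 
    apply div_le_div_of_nonneg_right _ (by positivity)
    calc M ^ (1 - θ') ≤ M ^ (1 - θ') * (|a| * M ^ (θ' / 2)) := le_mul_of_one_le_right (by positivity) hone
      _ = |a| * M ^ (1 - θ' / 2) := by
          have e1 : M ^ (1 - θ') * (|a| * M ^ (θ' / 2)) = |a| * (M ^ (1 - θ') * M ^ (θ' / 2)) := by ring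
          rw [e1, ← Real.rpow_add hM0]
          congr 2
          ring
  rw [hcomb]
  apply Pool.Agent.U828.KD.bent_mono' hkey
  exact Pool.Agent.U828.KD.bent_mul d x f _ a hb

end Pool.Agent.Results.MP_ff81b6_nt.HigherConvexFunctions
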