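import Pool.Agent.U234.RP.Main

set_option autoImplicit false

/-!
# Record prime gaps at random polynomials, random codewords and random functions modulo primes

Write `f(x) = log x (log₂ x)² log₄ x / (log₃ x)²` for the record size of the prime-free intervals.  An
integer `n` is a centre modulo `p` if every integer within `κ f(p)` of `n` has a prime factor `≤ p ^ ε`;
so a centre in `(p ^ ε + κ f(p), p)` is in the middle of a record prime gap.  A finite family of vectors
modulo `p` has many centres if in every box with sides `L ≥ p ^ (1 - δ)` all the coordinates of at least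
`|s| p ^ (-ε)` of the vectors are represented by centres.

Here the ARGUMENTS run through an ARBITRARY set, which may be as thin as `p ^ (4 ε)`, and the functions
are typical.  All the constants depend only on `r` and `ε`.

(1) Linear families.  Let `Ω` be a finite abelian group, `v` a homomorphism from `Ω` to the functions
`ι → (ℤ/p)^r`, and `s` a set of at least `p ^ (r / l + 3 ε)` points such that the values at any `2 l`
points of `s` can be prescribed.  For all but `l! p ^ (-l ε) |Ω|` of the elements `ω` the family `v ω`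
on `s` has many centres.  This contains the `r`-tuples of codewords of every linear code with dual
distance `> 2 l`.
(2) Polynomials.  Let `S ⊆ (ℤ/p)^m` be ANY set with `|S| ≥ p ^ (r / l + 3 ε)`.  For all but the proportion
`l! p ^ (-l ε)` of the `r`-tuples of polynomials of total degree `< 2 l` in `m` variables the values at
the points of `S` have many centres.  For `l = 1`: affine maps.
(3) Functions.  Let `ι` be a finite set with `|ι| ≥ p ^ (r / l + 3 ε)`, `l ≥ 1`.  All but the proportion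
`l! p ^ (-l ε)` of the functions `ι → (ℤ/p)^r` have many centres.

Proof: the `2 l`-th moments of the exponential sums over `Ω` are at most `l! |s| ^ l`; then the criterion
with the Fourier coefficients (part (0) of `MP_69be96_nt.ProductsAndPowersModP`, starting library).
-/

namespace Pool.Agent.Results.MP_ff81b6_nt.RandomPolynomialsAndCodes

open Finset

/-- The record scale `f(x) = log x (log₂ x)² log₄ x / (log₃ x)²` (iterated natural logarithms). -/
noncomputable def f (x : ℝ) : ℝ :=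
  Real.log x * (Real.log (Real.log x)) ^ 2 * Real.log (Real.log (Real.log (Real.log x))) /
    (Real.log (Real.log (Real.log x))) ^ 2

/-- Every integer within `κ f(p)` of `n` has a prime factor at most `p ^ ε`. -/
def Centre (κ ε : ℝ) (p : ℕ) (n : ℤ) : Prop :=
  ∀ t : ℤ, |(t : ℝ) - n| ≤ κ * f p → ∃ l : ℕ, l.Prime ∧ (l : ℝ) ≤ (p : ℝ) ^ ε ∧ (l : ℤ) ∣ t

/-- For every box `∏ (M_j, M_j + L]` with `p ^ (1 - δ) ≤ L ≤ p` at least `|s| p ^ (-ε)` of the vectors
`v_i`, `i ∈ s`, modulo `p` are represented by vectors of centres in the box. -/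
def ManyCentres (κ ε δ : ℝ) (p : ℕ) {ι : Type} {r : ℕ} (s : Finset ι) (v : ι → Fin r → ZMod p) :
    Prop :=
  ∀ (M : Fin r → ℤ) (L : ℕ), (p : ℝ) ^ (1 - δ) ≤ L → L ≤ p →
    ∃ g ⊆ s, s.card * (p : ℝ) ^ (-ε) ≤ g.card ∧
      ∀ i ∈ g, ∀ j, ∃ n : ℤ, M j < n ∧ n ≤ M j + L ∧ (n : ZMod p) = v i j ∧ Centre κ ε p n

/-- **Record prime gaps at random polynomials, random codewords and random functions.** -/
theorem result (r : ℕ) (hr : 1 ≤ r) (ε : ℝ) (hε : 0 < ε) (hε1 : ε ≤ 1) :
    ∃ κ : ℝ, 0 < κ ∧ ∃ δ : ℝ, 0 < δ ∧ ∃ P₀ : ℝ, ∀ (p : ℕ) [Fact p.Prime], P₀ ≤ p →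
    ∀ l : ℕ, 1 ≤ l → l < p →
    -- (1) linear families
    (∀ (ι Ω : Type) [Finite Ω] [AddCommGroup Ω] (v : Ω →+ (ι → Fin r → ZMod p)) (s : Finset ι),
      (∀ T ⊆ s, T.card ≤ 2 * l → ∀ g : ι → Fin r → ZMod p, ∃ ω, ∀ i ∈ T, v ω i = g i) →
      (p : ℝ) ^ ((r : ℝ) / l + 3 * ε) ≤ s.card →
      (Nat.card {ω : Ω // ¬ ManyCentres κ ε δ p s (v ω)} : ℝ) ≤
        l.factorial * (p : ℝ) ^ (-(l * ε)) * Nat.card Ω) ∧
    -- (2) polynomials of total degree `< 2 l` in `m` variables
    (∀ (m : ℕ) (S : Finset (Fin m → ZMod p)), (p : ℝ) ^ ((r : ℝ) / l + 3 * ε) ≤ S.card →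
      (Nat.card {q : Fin r → MvPolynomial.restrictTotalDegree (Fin m) (ZMod p) (2 * l - 1) //
        ¬ ManyCentres κ ε δ p S fun x j => MvPolynomial.eval x (q j : MvPolynomial _ _)} : ℝ) ≤
      l.factorial * (p : ℝ) ^ (-(l * ε)) *
        Nat.card (Fin r → MvPolynomial.restrictTotalDegree (Fin m) (ZMod p) (2 * l - 1))) ∧
    -- (3) functions
    (∀ (ι : Type) [Fintype ι], (p : ℝ) ^ ((r : ℝ) / l + 3 * ε) ≤ Fintype.card ι →
      (Nat.card {F : ι → Fin r → ZMod p // ¬ ManyCentres κ ε δ p univ F} : ℝ) ≤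
      l.factorial * (p : ℝ) ^ (-(l * ε)) * Nat.card (ι → Fin r → ZMod p)) := by
  classical
  obtain ⟨κ, hκ, δ, hδ, P₀, H⟩ := Pool.Agent.U234.RP.family r hr ε hε hε1
  refine ⟨κ, hκ, δ, hδ, P₀, fun p _ hp l hl hlp => ?_⟩
  have key : ∀ (ι Ω : Type) [Finite Ω] [AddCommGroup Ω] (v : Ω →+ (ι → Fin r → ZMod p))
      (s : Finset ι),
      (∀ T ⊆ s, T.card ≤ 2 * l → ∀ g : ι → Fin r → ZMod p, ∃ ω, ∀ i ∈ T, v ω i = g i) →
      (p : ℝ) ^ ((r : ℝ) / l + 3 * ε) ≤ s.card →
      (Nat.card {ω : Ω // ¬ ManyCentres κ ε δ p s (v ω)} : ℝ) ≤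
        l.factorial * (p : ℝ) ^ (-(l * ε)) * Nat.card Ω := by
    intro ι Ω _ _ v s hv hs
    have := Fintype.ofFinite Ω
    have h1 := H p hp ι Ω v s l hl hlp hv hs
      (univ.filter fun ω => ¬ ManyCentres κ ε δ p s (v ω)) fun ω hω => (mem_filter.1 hω).2
    rw [Nat.card_eq_fintype_card, Nat.card_eq_fintype_card, Fintype.card_subtype]
    exact h1
  refine ⟨key, fun m S hS => ?_, fun ι _ hs => ?_⟩
  · refine key _ _ (Pool.Agent.U234.RP.ev p m (2 * l - 1) r) S (fun T _ hT g => ?_) hS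
    exact Pool.Agent.U234.RP.interp (2 * l - 1) T (by omega) g
  · exact key ι _ (AddMonoidHom.id (ι → Fin r → ZMod p)) univ
      (fun T _ _ g => ⟨g, fun _ _ => rfl⟩) (by rwa [card_univ])

end Pool.Agent.Results.MP_ff81b6_nt.RandomPolynomialsAndCodes
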