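import Mathlib
import Pool.Agent.U839.Ch.Chain

set_option autoImplicit false

/-!
# Consecutive gaps on the scale of Cramér's conjecture, in sieved random models of the primes

Let `T` be nondecreasing and smaller than every power of `n`. The integers `n` without prime factors `p ≤ T(n)` are chosen
independently with probability `∏_{p ≤ T(n)} (1 - 1/p)⁻¹ / log n`; let `q_0 < q_1 < …` be the chosen numbers, and consider
the vectors of `k` consecutive gaps

`V_i = (q_(i+1) - q_i, …, q_(i+k) - q_(i+k-1)) / log² q_i`.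

We determine their joint distribution on the scale of Cramér's conjecture: if `T(n) ≤ (log n)^(o(1))`, and only then,
almost surely the following holds for all `k`:

* the set of the limit points of the `V_i` is the simplex `{y : y_j ≥ 0, y_1 + … + y_k ≤ 1}`;
* for every `y` in the simplex the number of the `i` with `q_i ≤ X` for which `V_i` is near `y` is
  `X^(1 - (y_1 + … + y_k) + o(1))` (first `X → ∞`, then the neighbourhood is shrunk to `y`);
* `q_(i+k) - q_i ≤ (1 + o(1)) log² q_i`;
* the largest value of the minimum of `k` consecutive gaps after a `q_i ≤ X` is asymptotic to `log² X / k`.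

So `k` consecutive gaps together cannot be larger than a single one, and every way to distribute the length `log² X` among
them occurs. The last statement is the prediction for the chains of large gaps between primes of Ford, Maynard and Tao.

Proof. Upper bounds: the expected number of chosen elements of a window of length `s log² n` is at least
`(1 - δ) s log n` (fundamental lemma, since `T` is smaller than every power of the length), so by a Chernoff bound the
probability of at most `k` elements is at most `C n^(-(1 - δ)² s)`, and the series of these probabilities times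
`n^(-(1 - s + ε))` converges. Lower bounds: in a window of length `c log² x`, `c < 1`, one prescribes all elements,
one near each of the given places; this has probability at least `x^(-c - η)`. For `x^(1 - η)` disjoint windows these events
are independent, and by a Chernoff bound `x^(1 - c - 3 η)` of them occur, with probability at least `1 - x^(-2)`. Only if: by
the effect of Maier's theorem, if `T(n) > (log n)^θ` for infinitely many `n` then some gaps are larger than
`(1 + δ) log² q_i` (library `Pool.Agent.U839.Sv`).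
-/

open MeasureTheory ProbabilityTheory Filter Topology

namespace Pool.Agent.Results.MP_ff81b6_nt.VectorsOfGapsInSievedModels

open Classical in
/-- `∏_{p ≤ T(n)} (1 - 1/p)⁻¹` if `n` has no prime factor `p ≤ T(n)`, and `0` otherwise. -/
noncomputable def weight (T : ℕ → ℕ) (n : ℕ) : ℝ :=
  if ∀ p, p.Prime → p ≤ T n → ¬ p ∣ n then
    ∏ p ∈ (Finset.Icc 1 (T n)).filter Nat.Prime, (1 - 1 / (p : ℝ))⁻¹ else 0

/-- The random model: `E n` is the event that `n` is chosen; these events are independent and have
probability `weight T n / log n` (if this is at most `1`, which is the case for all large `n` here). -/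
structure Model {Ω : Type*} [MeasurableSpace Ω] (μ : Measure Ω) (T : ℕ → ℕ) (E : ℕ → Set Ω) : Prop where
  meas : ∀ n, MeasurableSet (E n)
  indep : iIndepSet E μ
  law : ∀ n : ℕ, μ.real (E n) = min 1 (weight T n / Real.log n)

/-- `T` is nondecreasing and eventually smaller than every positive power of `n`. -/
def Sieve (T : ℕ → ℕ) : Prop :=
  Monotone T ∧ ∀ ε : ℝ, 0 < ε → ∀ᶠ n : ℕ in atTop, (T n : ℝ) ≤ (n : ℝ) ^ ε

/-- The `i`-th element of `Q = {q_0 < q_1 < …}`. -/
noncomputable def q (Q : Set ℕ) (i : ℕ) : ℕ := Nat.nth (· ∈ Q) i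

/-- The vector of the `k` consecutive gaps that follow `q_i`, divided by `(log q_i)²`. -/
noncomputable def gaps (Q : Set ℕ) (k i : ℕ) : Fin k → ℝ := fun j =>
  ((q Q (i + j + 1) : ℝ) - q Q (i + j)) / (Real.log (q Q i)) ^ 2

/-- The `i` with `q_i ≤ X` for which all components of `gaps Q k i - y` are smaller than `ε`. -/
def close (Q : Set ℕ) (k : ℕ) (y : Fin k → ℝ) (ε : ℝ) (X : ℕ) : Set ℕ :=
  {i | q Q i ≤ X ∧ ∀ j, |gaps Q k i j - y j| < ε}

/-- The law of consecutive gaps. -/
structure GapLaw (Q : Set ℕ) : Prop where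
  /-- There are infinitely many elements. -/
  infinite : Q.Infinite
  /-- The limit points of the vectors of `k` consecutive gaps are the points of the simplex. -/
  limits : ∀ k : ℕ, {y : Fin k → ℝ | MapClusterPt y atTop (gaps Q k)} = {y | (∀ j, 0 ≤ y j) ∧ ∑ j, y j ≤ 1}
  /-- For every point `y` of the simplex there are many vectors near `y`, and they occur between `X / 4` and `X`. -/
  many : ∀ (k : ℕ) (y : Fin k → ℝ), (∀ j, 0 ≤ y j) → ∑ j, y j ≤ 1 → ∀ ε : ℝ, 0 < ε → ∀ᶠ X : ℕ in atTop,
    (X : ℝ) ^ (1 - ∑ j, y j - ε) ≤ ({i | i ∈ close Q k y ε X ∧ X < 4 * q Q i}.ncard : ℝ)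
  /-- There are not more. -/
  few : ∀ (k : ℕ) (y : Fin k → ℝ), (∀ j, 0 ≤ y j) → ∑ j, y j ≤ 1 → ∀ ε : ℝ, 0 < ε → ∀ᶠ X : ℕ in atTop,
    ((close Q k y ε X).ncard : ℝ) ≤ (X : ℝ) ^ (1 - ∑ j, y j + (k + 1) * ε)
  /-- `k` consecutive gaps together are not larger than a single gap. -/
  bounded : ∀ (k : ℕ) (ε : ℝ), 0 < ε → ∀ᶠ i : ℕ in atTop,
    (q Q (i + k) : ℝ) - q Q i ≤ (1 + ε) * (Real.log (q Q i)) ^ 2
  /-- The largest minimum of `k` consecutive gaps after a `q_i ≤ X` is asymptotic to `log² X / k`. -/
  chains : ∀ k : ℕ, 1 ≤ k → ∀ ε : ℝ, 0 < ε → ∀ᶠ X : ℕ in atTop,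
    (∃ i, q Q i ≤ X ∧ ∀ j < k, (1 - ε) / k * (Real.log X) ^ 2 ≤ (q Q (i + j + 1) : ℝ) - q Q (i + j)) ∧
    ∀ i, q Q i ≤ X → ∃ j < k, (q Q (i + j + 1) : ℝ) - q Q (i + j) ≤ (1 + ε) / k * (Real.log X) ^ 2

/-- The law of consecutive gaps holds almost surely if and only if `T(n) ≤ (log n)^(o(1))`. -/
theorem result {Ω : Type*} [MeasurableSpace Ω] {μ : Measure Ω} [IsProbabilityMeasure μ] (T : ℕ → ℕ)
    (hT : Sieve T) (E : ℕ → Set Ω) (hE : Model μ T E) :
    (∀ᵐ ω ∂μ, GapLaw {n | ω ∈ E n}) ↔
      ∀ θ : ℝ, 0 < θ → ∀ᶠ n : ℕ in atTop, (T n : ℝ) ≤ (Real.log n) ^ θ := by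
  have h : Pool.Agent.U839.Sv.Sieved μ E T := ⟨hE.meas, hE.indep, hE.law⟩
  constructor
  · intro hlaw θ hθ
    refine Pool.Agent.U839.Ch.conv T hT.1 hT.2 E h ?_ θ hθ
    filter_upwards [hlaw] with ω hω ε hε
    exact hω.bounded 1 ε hε
  · intro hTl
    filter_upwards [Pool.Agent.U839.Ch.many_law T hT.1 hTl h, Pool.Agent.U839.Ch.few_law T hT.1 hTl h,
      Pool.Agent.U839.Ch.all_law T hT.1 hTl h, Pool.Agent.U839.Sv.inf h hT.1 hT.2] with ω h1 h2 h3 h4
    exact ⟨h4, Pool.Agent.U839.Ch.limit_law _ h4 h1 h3, h1, h2, h3,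
      Pool.Agent.U839.Ch.chain_law _ h4 h1 h3⟩

end Pool.Agent.Results.MP_ff81b6_nt.VectorsOfGapsInSievedModels
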